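import Pool.Agent.Helper88.TU.Goals

/-!
Packet TU-BH (MP_69be96_nt, helper88): the Brun-Hooley sieve, pointwise.
-/

set_option autoImplicit false

open Finset Filter Topology

open scoped Classical

namespace Pool.Agent.Helper10.TU

open Pool.Agent.Helper88.PP (pr)
open Pool.Agent.Helper88.TU

/-- the alternating sum over the small subsets of a nonempty set -/
theorem alt_small (P : Finset ℕ) (r : ℕ) (hP : P.Nonempty) :
    ∑ A ∈ P.powerset.filter (fun A => A.card ≤ r), (-1 : ℝ) ^ A.card =
      (-1) ^ r * ((P.card - 1).choose r : ℝ) := by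
  have h1 : ∑ A ∈ P.powerset.filter (fun A => A.card ≤ r), (-1 : ℝ) ^ A.card =
      ∑ A ∈ P.powerset, (fun j => if j ≤ r then (-1 : ℝ) ^ j else 0) A.card := by
    rw [sum_filter]
  rw [h1, sum_powerset_apply_card (fun j => if j ≤ r then (-1 : ℝ) ^ j else 0)]
  obtain ⟨N, hN⟩ : ∃ N, P.card = N + 1 := ⟨P.card - 1, by have := hP.card_pos; omega⟩
  have h2 : ∑ m ∈ range (P.card + 1), P.card.choose m • (if m ≤ r then (-1 : ℝ) ^ m else 0) =
      ∑ m ∈ range (r + 1), (-1 : ℝ) ^ m * (P.card.choose m : ℝ) := by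
    have h3 : ∑ m ∈ range (P.card + 1), P.card.choose m • (if m ≤ r then (-1 : ℝ) ^ m else 0) =
        ∑ m ∈ (range (P.card + 1)).filter (fun m => m ≤ r), (-1 : ℝ) ^ m * (P.card.choose m : ℝ) := by
      rw [sum_filter]
      apply sum_congr rfl
      intro m _
      split_ifs
      · rw [nsmul_eq_mul, mul_comm]
      · simp
    rw [h3]
    apply sum_subset
    · intro m hm
      rw [mem_filter] at hm
      rw [mem_range]; omega
    · intro m hm hm'
      rw [mem_range] at hm
      have : P.card < m := by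
        by_contra hcon
        apply hm'
        rw [mem_filter, mem_range]
        omega
      rw [Nat.choose_eq_zero_of_lt this]
      simp
  rw [h2, hN]
  have h4 := Int.alternating_sum_range_choose_eq_choose (n := N) (m := r)
  have h5 := congrArg (fun x : ℤ => (x : ℝ)) h4
  push_cast at h5
  rw [h5]
  simp

/-- the alternating sum, real bounds -/
theorem alt_bounds (P : Finset ℕ) (r : ℕ) (hr : Even r) :
    (if P = ∅ then (1 : ℝ) else 0) ≤
        ∑ A ∈ P.powerset.filter (fun A => A.card ≤ r), (-1 : ℝ) ^ A.card ∧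
      ∑ A ∈ P.powerset.filter (fun A => A.card ≤ r), (-1 : ℝ) ^ A.card ≤
        (if P = ∅ then (1 : ℝ) else 0) +
          ((P.powerset.filter (fun A => A.card = r + 1)).card : ℝ) := by
  by_cases hP : P = ∅
  · subst hP
    have h1 : (∅ : Finset ℕ).powerset.filter (fun A => A.card ≤ r) = {∅} := by
      ext A; simp
      rintro rfl; simp
    rw [h1]
    simp
  · have hne := nonempty_iff_ne_empty.2 hP
    rw [alt_small P r hne, hr.neg_one_pow, one_mul, if_neg hP]
    refine ⟨by positivity, ?_⟩
    have h2 : (P.powerset.filter (fun A => A.card = r + 1)).card = P.card.choose (r + 1) := by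
      rw [← card_powersetCard, powersetCard_eq_filter]
    rw [h2, zero_add]
    obtain ⟨N, hN⟩ : ∃ N, P.card = N + 1 := ⟨P.card - 1, by have := hne.card_pos; omega⟩
    rw [hN, Nat.choose_succ_succ]
    push_cast
    have : (0 : ℝ) ≤ (N.choose (r + 1) : ℝ) := by positivity
    exact le_add_of_nonneg_right this

/-- expansion of a product over disjoint sets -/
theorem prod_expand (I : Finset ℕ) (P : ℕ → Finset ℕ) (c : ℕ → ℕ → Prop)
    (hd : ∀ s ∈ I, ∀ t ∈ I, s ≠ t → Disjoint (P s) (P t)) :
    ∏ t ∈ I, ∑ B ∈ (P t).powerset.filter (fun B => c t B.card), (-1 : ℝ) ^ B.card =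
      ∑ A ∈ (I.biUnion P).powerset.filter (fun A => ∀ t ∈ I, c t (A ∩ P t).card),
        (-1 : ℝ) ^ A.card := by
  induction I using Finset.induction_on with
  | empty =>
    have h1 : ((∅ : Finset ℕ).biUnion P).powerset.filter
        (fun A => ∀ t ∈ (∅ : Finset ℕ), c t (A ∩ P t).card) = {∅} := by
      ext A; simp
    rw [h1]; simp
  | insert a I ha ih =>
    rw [prod_insert ha, ih (fun s hs t ht => hd s (mem_insert_of_mem hs) t (mem_insert_of_mem ht))]
    rw [sum_mul_sum, ← sum_product']
    have hda : Disjoint (P a) (I.biUnion P) := by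
      rw [disjoint_biUnion_right]
      intro t ht
      exact hd a (mem_insert_self a I) t (mem_insert_of_mem ht) (by rintro rfl; exact ha ht)
    apply sum_bij' (i := fun p _ => p.1 ∪ p.2) (j := fun A _ => (A ∩ P a, A ∩ I.biUnion P))
    · rintro ⟨B, C⟩ hp
      simp only [mem_product, mem_filter, mem_powerset] at hp
      obtain ⟨⟨hB, hB'⟩, hC, hC'⟩ := hp
      simp only [mem_filter, mem_powerset, biUnion_insert]
      refine ⟨union_subset_union hB hC, ?_⟩
      intro t ht
      rcases mem_insert.1 ht with rfl | ht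
      · have : (B ∪ C) ∩ P t = B := by
          rw [union_inter_distrib_right, inter_eq_left.2 hB]
          have : C ∩ P t = ∅ := by
            rw [← disjoint_iff_inter_eq_empty]
            exact (disjoint_of_subset_right hC hda).symm
          rw [this, union_empty]
        rw [this]; exact hB'
      · have : (B ∪ C) ∩ P t = C ∩ P t := by
          rw [union_inter_distrib_right]
          have : B ∩ P t = ∅ := by
            rw [← disjoint_iff_inter_eq_empty]
            refine disjoint_of_subset_left hB (disjoint_of_subset_right ?_ hda)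
            exact subset_biUnion_of_mem P ht
          rw [this, empty_union]
        rw [this]; exact hC' t ht
    · intro A hA
      simp only [mem_filter, mem_powerset, biUnion_insert] at hA
      simp only [mem_product, mem_filter, mem_powerset]
      refine ⟨⟨inter_subset_right, hA.2 a (mem_insert_self a I)⟩, inter_subset_right, ?_⟩
      intro t ht
      have : A ∩ I.biUnion P ∩ P t = A ∩ P t := by
        rw [inter_assoc, inter_eq_right.2 (subset_biUnion_of_mem P ht)]
      rw [this]; exact hA.2 t (mem_insert_of_mem ht)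
    · rintro ⟨B, C⟩ hp
      simp only [mem_product, mem_filter, mem_powerset] at hp
      obtain ⟨⟨hB, hB'⟩, hC, hC'⟩ := hp
      simp only [Prod.mk.injEq]
      constructor
      · rw [union_inter_distrib_right, inter_eq_left.2 hB]
        have : C ∩ P a = ∅ := by
          rw [← disjoint_iff_inter_eq_empty]
          exact (disjoint_of_subset_right hC hda).symm
        rw [this, union_empty]
      · rw [union_inter_distrib_right, inter_eq_left.2 hC]
        have : B ∩ I.biUnion P = ∅ := by
          rw [← disjoint_iff_inter_eq_empty]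
          exact disjoint_of_subset_left hB hda
        rw [this, empty_union]
    · intro A hA
      simp only [mem_filter, mem_powerset, biUnion_insert] at hA
      simp only
      rw [← inter_union_distrib_left, inter_eq_left.2 hA.1]
    · rintro ⟨B, C⟩ hp
      simp only [mem_product, mem_filter, mem_powerset] at hp
      obtain ⟨⟨hB, hB'⟩, hC, hC'⟩ := hp
      have : Disjoint B C := disjoint_of_subset_left hB (disjoint_of_subset_right hC hda)
      simp only
      rw [card_union_of_disjoint this, pow_add]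

/-- product inequality -/
theorem prod_upper (I : Finset ℕ) (u v b : ℕ → ℝ) (hu : ∀ t, 0 ≤ u t) (hv : ∀ t, 0 ≤ v t)
    (hb : ∀ t, 0 ≤ b t) (hbu : ∀ t, b t ≤ u t) (huv : ∀ t, u t ≤ b t + v t) :
    ∏ t ∈ I, u t ≤ ∏ t ∈ I, b t + ∑ t ∈ I, v t * ∏ s ∈ I.erase t, u s := by
  induction I using Finset.induction_on with
  | empty => simp
  | insert a I ha ih =>
    rw [prod_insert ha, prod_insert ha, sum_insert ha, erase_insert ha]
    have h1 : ∑ t ∈ I, v t * ∏ s ∈ (insert a I).erase t, u s =
        ∑ t ∈ I, v t * (u a * ∏ s ∈ I.erase t, u s) := by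
      apply sum_congr rfl
      intro t ht
      have hta : t ≠ a := by rintro rfl; exact ha ht
      rw [erase_insert_of_ne (Ne.symm hta), prod_insert]
      intro h; exact ha (mem_of_mem_erase h)
    rw [h1]
    have hP : 0 ≤ ∏ t ∈ I, u t := prod_nonneg fun t _ => hu t
    have h2 : u a * ∏ t ∈ I, u t ≤ (b a + v a) * ∏ t ∈ I, u t :=
      mul_le_mul_of_nonneg_right (huv a) hP
    have h3 : b a * ∏ t ∈ I, u t ≤ b a * (∏ t ∈ I, b t + ∑ t ∈ I, v t * ∏ s ∈ I.erase t, u s) :=
      mul_le_mul_of_nonneg_left ih (hb a)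
    have h4 : b a * ∑ t ∈ I, v t * ∏ s ∈ I.erase t, u s ≤
        ∑ t ∈ I, v t * (u a * ∏ s ∈ I.erase t, u s) := by
      rw [mul_sum]
      apply sum_le_sum
      intro t _
      have h5 : 0 ≤ v t * ∏ s ∈ I.erase t, u s := mul_nonneg (hv t) (prod_nonneg fun s _ => hu s)
      calc b a * (v t * ∏ s ∈ I.erase t, u s) ≤ u a * (v t * ∏ s ∈ I.erase t, u s) :=
            mul_le_mul_of_nonneg_right (hbu a) h5
        _ = v t * (u a * ∏ s ∈ I.erase t, u s) := by ring
    nlinarith

/-! ### the ranges -/

theorem mem_pr {y z p : ℕ} : p ∈ pr y z ↔ (y < p ∧ p ≤ z) ∧ p.Prime := by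
  unfold pr; rw [mem_filter, mem_Ioc]

theorem pt_disj (y z : ℕ) {s t : ℕ} (h : s < t) : Disjoint (Pt y z s) (Pt y z t) := by
  rw [disjoint_left]
  intro p hp hq
  simp only [Pt, mem_filter] at hp hq
  have h1 : p ^ 2 ^ (s + 1) ≤ p ^ 2 ^ t :=
    Nat.pow_le_pow_right (mem_pr.1 hp.1).2.pos (Nat.pow_le_pow_right (by norm_num) h)
  omega

theorem pt_cover {y z p : ℕ} (hp : p ∈ pr y z) : ∃ t < z, p ∈ Pt y z t := by
  have hpr := mem_pr.1 hp
  have h2 : 2 ≤ p := hpr.2.two_le
  have hbig : ∀ t, t < p ^ 2 ^ t := by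
    intro t
    calc t < 2 ^ t := Nat.lt_two_pow_self
      _ ≤ 2 ^ 2 ^ t := Nat.pow_le_pow_right (by norm_num) Nat.lt_two_pow_self.le
      _ ≤ p ^ 2 ^ t := Nat.pow_le_pow_left h2 _
  have hex : ∃ t, z < p ^ 2 ^ (t + 1) := ⟨z, (Nat.lt_succ_self z).trans (hbig (z + 1))⟩
  set t := Nat.find hex with ht
  have h3 : z < p ^ 2 ^ (t + 1) := Nat.find_spec hex
  have h4 : p ^ 2 ^ t ≤ z := by
    rcases Nat.eq_zero_or_pos t with h0 | h0
    · rw [h0]; simpa using hpr.1.2
    · have := Nat.find_min hex (m := t - 1) (by omega)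
      push Not at this
      rwa [Nat.sub_add_cancel h0] at this
  refine ⟨t, (hbig t).trans_le h4, ?_⟩
  simp only [Pt, mem_filter]
  exact ⟨hp, h3, h4⟩

theorem S_biUnion {y z : ℕ} {S : Finset ℕ} (hS : S ⊆ pr y z) :
    (range z).biUnion (fun t => S ∩ Pt y z t) = S := by
  ext p
  simp only [mem_biUnion, mem_range, mem_inter]
  constructor
  · rintro ⟨t, _, h, _⟩; exact h
  · intro h
    obtain ⟨t, ht, hp⟩ := pt_cover (hS h)
    exact ⟨t, ht, h, hp⟩

theorem Ut_eq (E y z t : ℕ) (S : Finset ℕ) : Ut E y z t S =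
    ∑ A ∈ (S ∩ Pt y z t).powerset.filter (fun A => A.card ≤ rt E t), (-1 : ℝ) ^ A.card := by
  unfold Ut
  apply sum_congr _ fun _ _ => rfl
  ext A
  simp only [mem_filter, mem_powerset, subset_inter_iff]
  tauto

theorem Vt_eq (E y z t : ℕ) (S : Finset ℕ) : Vt E y z t S =
    (((S ∩ Pt y z t).powerset.filter (fun A => A.card = rt E t + 1)).card : ℝ) := by
  unfold Vt
  congr 2
  ext A
  simp only [mem_filter, mem_powerset, subset_inter_iff]
  tauto

theorem Vt_eq' (E y z t : ℕ) (S : Finset ℕ) : Vt E y z t S =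
    -∑ A ∈ (S ∩ Pt y z t).powerset.filter (fun A => A.card = rt E t + 1), (-1 : ℝ) ^ A.card := by
  rw [Vt_eq]
  have h1 : ∑ A ∈ (S ∩ Pt y z t).powerset.filter (fun A => A.card = rt E t + 1),
      (-1 : ℝ) ^ A.card =
      ∑ A ∈ (S ∩ Pt y z t).powerset.filter (fun A => A.card = rt E t + 1), (-1 : ℝ) := by
    apply sum_congr rfl
    intro A hA
    rw [mem_filter] at hA
    rw [hA.2]
    apply Odd.neg_one_pow
    exact ⟨E / 256 + t, by unfold rt; ring⟩
  rw [h1, sum_const, nsmul_eq_mul]
  ring

theorem bh : StmtBH := by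
  intro E y z S _ hS
  have hr : ∀ t, Even (rt E t) := fun t => ⟨E / 256 + t, by unfold rt; ring⟩
  have hb := fun t => alt_bounds (S ∩ Pt y z t) (rt E t) (hr t)
  have hb1 : ∀ t, (if S ∩ Pt y z t = ∅ then (1 : ℝ) else 0) ≤ Ut E y z t S := by
    intro t; rw [Ut_eq]; exact (hb t).1
  have hb2 : ∀ t, Ut E y z t S ≤ (if S ∩ Pt y z t = ∅ then (1 : ℝ) else 0) + Vt E y z t S := by
    intro t; rw [Ut_eq, Vt_eq]; exact (hb t).2
  have hb0 : ∀ t, (0 : ℝ) ≤ (if S ∩ Pt y z t = ∅ then (1 : ℝ) else 0) := by
    intro t; split_ifs <;> norm_num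
  have hU : ∀ t, 0 ≤ Ut E y z t S := fun t => (hb0 t).trans (hb1 t)
  have hV : ∀ t, 0 ≤ Vt E y z t S := by
    intro t; unfold Vt; positivity
  have hprod : ∏ t ∈ range z, (if S ∩ Pt y z t = ∅ then (1 : ℝ) else 0) =
      if S = ∅ then 1 else 0 := by
    by_cases h : S = ∅
    · subst h
      simp
    · rw [if_neg h]
      obtain ⟨p, hp⟩ := nonempty_iff_ne_empty.2 h
      obtain ⟨t, ht, hpt⟩ := pt_cover (hS hp)
      apply prod_eq_zero (mem_range.2 ht)
      rw [if_neg]
      exact nonempty_iff_ne_empty.1 ⟨p, mem_inter.2 ⟨hp, hpt⟩⟩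
  have hdisj : ∀ s ∈ range z, ∀ t ∈ range z, s ≠ t →
      Disjoint (S ∩ Pt y z s) (S ∩ Pt y z t) := by
    intro s _ t _ hst
    have h1 : Disjoint (Pt y z s) (Pt y z t) := by
      rcases lt_or_gt_of_ne hst with h | h
      · exact pt_disj y z h
      · exact (pt_disj y z h).symm
    exact disjoint_of_subset_left inter_subset_right (disjoint_of_subset_right inter_subset_right h1)
  have hinter : ∀ (A : Finset ℕ) (t : ℕ), A ⊆ S → A ∩ (S ∩ Pt y z t) = A ∩ Pt y z t := by
    intro A t hA
    rw [← inter_assoc, inter_eq_left.2 hA]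
  refine ⟨hU, ?_, ?_, ?_, ?_⟩
  · rw [← hprod]
    exact prod_le_prod (fun t _ => hb0 t) fun t _ => hb1 t
  · rw [← hprod]
    exact prod_upper (range z) _ _ _ hU hV hb0 hb1 hb2
  · have h1 := prod_expand (range z) (fun t => S ∩ Pt y z t) (fun t n => n ≤ rt E t) hdisj
    rw [S_biUnion hS] at h1
    have h1' : ∏ t ∈ range z, Ut E y z t S =
        ∑ A ∈ S.powerset.filter (fun A => ∀ t ∈ range z, (A ∩ (S ∩ Pt y z t)).card ≤ rt E t),
          (-1 : ℝ) ^ A.card := by
      rw [prod_congr rfl (fun t _ => Ut_eq E y z t S)]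
      convert h1 using 1
      · apply prod_congr rfl
        intro t _
        apply sum_congr _ fun _ _ => rfl
        ext A
        simp only [mem_filter]
      · apply sum_congr _ fun _ _ => rfl
        ext A
        simp only [mem_filter]
    rw [h1']
    apply sum_congr _ fun _ _ => rfl
    ext A
    simp only [AA, mem_filter, mem_powerset, mem_range]
    constructor
    · rintro ⟨hA, hc⟩
      refine ⟨⟨hA.trans hS, fun t ht => ?_⟩, hA⟩
      rw [← hinter A t hA]; exact hc t ht
    · rintro ⟨⟨_, hc⟩, hA⟩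
      refine ⟨hA, fun t ht => ?_⟩
      rw [hinter A t hA]; exact hc t ht
  · unfold EF
    rw [← sum_neg_distrib]
    apply sum_congr rfl
    intro t ht
    have h1 := prod_expand (range z) (fun t => S ∩ Pt y z t)
      (fun s n => if s = t then n = rt E s + 1 else n ≤ rt E s) hdisj
    rw [S_biUnion hS] at h1
    have h2 : ∏ s ∈ range z, ∑ B ∈ (S ∩ Pt y z s).powerset.filter
        (fun B => if s = t then B.card = rt E s + 1 else B.card ≤ rt E s), (-1 : ℝ) ^ B.card =
        (-Vt E y z t S) * ∏ s ∈ (range z).erase t, Ut E y z s S := by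
      rw [← mul_prod_erase (range z) _ ht]
      congr 1
      · rw [Vt_eq', neg_neg]
        simp
      · apply prod_congr rfl
        intro s hs
        have hst : s ≠ t := (mem_erase.1 hs).1
        rw [Ut_eq]
        simp [hst]
    have h3 : ∑ A ∈ S.powerset.filter (fun A => ∀ s ∈ range z,
        if s = t then (A ∩ (S ∩ Pt y z s)).card = rt E s + 1
          else (A ∩ (S ∩ Pt y z s)).card ≤ rt E s), (-1 : ℝ) ^ A.card =
        ∑ A ∈ (AX E y z t).filter (fun A => A ⊆ S), (-1 : ℝ) ^ A.card := by
      apply sum_congr _ fun _ _ => rfl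
      ext A
      simp only [AX, mem_filter, mem_powerset]
      constructor
      · rintro ⟨hA, hc⟩
        refine ⟨⟨hA.trans hS, ?_, ?_⟩, hA⟩
        · have := hc t ht
          rw [if_pos rfl, hinter A t hA] at this
          exact this
        · intro s hs hst
          have := hc s (mem_range.2 hs)
          rw [if_neg hst, hinter A s hA] at this
          exact this
      · rintro ⟨⟨_, hc1, hc2⟩, hA⟩
        refine ⟨hA, fun s hs => ?_⟩
        rw [hinter A s hA]
        split_ifs with h
        · rw [h]; exact hc1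
        · exact hc2 s (mem_range.1 hs) h
    have h4 : (-Vt E y z t S) * ∏ s ∈ (range z).erase t, Ut E y z s S =
        ∑ A ∈ (AX E y z t).filter (fun A => A ⊆ S), (-1 : ℝ) ^ A.card := by
      rw [← h2, ← h3]
      convert h1 using 1
      · apply prod_congr rfl
        intro t _
        apply sum_congr _ fun _ _ => rfl
        ext A
        simp only [mem_filter]
      · apply sum_congr _ fun _ _ => rfl
        ext A
        simp only [mem_filter]
    rw [← h4]
    ring

end Pool.Agent.Helper10.TU
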